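import Pool.Agent.helper83.ORE.SpecDE

set_option autoImplicit false

namespace Pool.Agent.ORE

open Module Pool.Agent.GS

theorem E4R_sq {F V : Type} [Field F] [AddCommGroup V] [Module F V]
    {Q : QuadraticForm F V} (h2 : (2 : F) = 0) {u d : V} (hu : Q u = 0) (hQd : Q d = 0)
    (hd : pb Q u d = 0) (x : V) : sq Q u d x = x + pb Q x u • d + pb Q x d • u := by
  rw [sq_apply h2 hu hd, hQd, zero_mul, zero_smul, add_zero]

theorem E4R (en5 : EN5_stmt) : E4R_stmt := by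
  intro F V _ _ _ Q h2 hN hSO y hy a₁ a₂ a₃ a₄ q1 q2 q3 q4 b12 b13 b14 b23 b24 b34 c11 c22 c33
    c44 c12 c21 c34 c43 c13 c14 c23 c24 c31 c32 c41 c42
  have hyl : Lin F y := hy.1
  have b21 : pb Q a₂ a₁ = 0 := by rw [pb_symm, b12]
  have b31 : pb Q a₃ a₁ = 0 := by rw [pb_symm, b13]
  have b41 : pb Q a₄ a₁ = 0 := by rw [pb_symm, b14]
  have b32 : pb Q a₃ a₂ = 0 := by rw [pb_symm, b23]
  have b42 : pb Q a₄ a₂ = 0 := by rw [pb_symm, b24]
  have b43 : pb Q a₄ a₃ = 0 := by rw [pb_symm, b34]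
  have b11 : pb Q a₁ a₁ = 0 := pb_self2 h2 Q _
  have b33 : pb Q a₃ a₃ = 0 := pb_self2 h2 Q _
  have d11 : pb Q (y a₁) a₁ = 0 := by rw [pb_symm, c11]
  have d33 : pb Q (y a₃) a₃ = 0 := by rw [pb_symm, c33]
  have d12 : pb Q (y a₁) a₂ = 1 := by rw [pb_symm, c21]
  have d13 : pb Q (y a₁) a₃ = 0 := by rw [pb_symm, c31]
  have d14 : pb Q (y a₁) a₄ = 0 := by rw [pb_symm, c41]
  have d31 : pb Q (y a₃) a₁ = 0 := by rw [pb_symm, c13]
  have d32 : pb Q (y a₃) a₂ = 0 := by rw [pb_symm, c23]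
  have d34 : pb Q (y a₃) a₄ = 1 := by rw [pb_symm, c43]
  have e : ∀ u v, pb Q (y u) (y v) = pb Q u v := OQ_pb hy
  have qy1 : Q (y a₁) = 0 := by rw [hy.2, q1]
  have qy2 : Q (y a₂) = 0 := by rw [hy.2, q2]
  have qy3 : Q (y a₃) = 0 := by rw [hy.2, q3]
  have qy4 : Q (y a₄) = 0 := by rw [hy.2, q4]
  set t : Equiv.Perm V := sq Q a₁ a₄ * sq Q a₂ a₃ * sq Q a₃ a₄ with ht
  have htm : t ∈ OmQ Q :=
    (OmQ Q).mul_mem ((OmQ Q).mul_mem (hSO a₁ a₄ q1 b14) (hSO a₂ a₃ q2 b23)) (hSO a₃ a₄ q3 b34)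
  have hti : t⁻¹ = sq Q a₃ a₄ * (sq Q a₂ a₃ * sq Q a₁ a₄) := by
    rw [ht, mul_inv_rev, mul_inv_rev, sq_inv, sq_inv, sq_inv]
  have hty : y * t * y⁻¹ = sq Q (y a₁) (y a₄) * sq Q (y a₂) (y a₃) * sq Q (y a₃) (y a₄) := by
    rw [← sq_conj_mem h2 hy q1 b14, ← sq_conj_mem h2 hy q2 b23, ← sq_conj_mem h2 hy q3 b34, ht]
    group
  set T : Equiv.Perm V := y * t * y⁻¹ with hT
  set z : Equiv.Perm V := y * t * y⁻¹ * t⁻¹ with hz
  have hzm : z ∈ OmQ Q := (OmQ Q).mul_mem (OmQ_conj hy htm) ((OmQ Q).inv_mem htm)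
  have hzx : ∀ x, z x = T (t⁻¹ x) := fun x => rfl
  -- the values of the inverse of t
  have f1 : t⁻¹ a₁ = a₁ := by
    rw [hti, Equiv.Perm.mul_apply, Equiv.Perm.mul_apply, E4R_sq h2 q1 q4 b14, b11, b14,
      zero_smul, zero_smul, add_zero, add_zero, E4R_sq h2 q2 q3 b23, b12, b13,
      zero_smul, zero_smul, add_zero, add_zero, E4R_sq h2 q3 q4 b34, b13, b14,
      zero_smul, zero_smul, add_zero, add_zero]
  have f3 : t⁻¹ a₃ = a₃ := by
    rw [hti, Equiv.Perm.mul_apply, Equiv.Perm.mul_apply, E4R_sq h2 q1 q4 b14, b31, b34,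
      zero_smul, zero_smul, add_zero, add_zero, E4R_sq h2 q2 q3 b23, b32, b33,
      zero_smul, zero_smul, add_zero, add_zero, E4R_sq h2 q3 q4 b34, b33, b34,
      zero_smul, zero_smul, add_zero, add_zero]
  have g1 : t⁻¹ (y a₁) = y a₁ + a₃ := by
    rw [hti, Equiv.Perm.mul_apply, Equiv.Perm.mul_apply, E4R_sq h2 q1 q4 b14, d11, d14,
      zero_smul, zero_smul, add_zero, add_zero, E4R_sq h2 q2 q3 b23, d12, d13, one_smul,
      zero_smul, add_zero, E4R_sq h2 q3 q4 b34, map_add, LinearMap.add_apply,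
      LinearMap.add_apply, d13, b33, d14, b34, add_zero, zero_smul, zero_smul, add_zero, add_zero]
  have s2 : pb Q (y a₃ + a₁) a₂ = 0 := by rw [map_add, LinearMap.add_apply, d32, b12, add_zero]
  have s3 : pb Q (y a₃ + a₁) a₃ = 0 := by rw [map_add, LinearMap.add_apply, d33, b13, add_zero]
  have s4 : pb Q (y a₃ + a₁) a₄ = 1 := by rw [map_add, LinearMap.add_apply, d34, b14, add_zero]
  have g3 : t⁻¹ (y a₃) = y a₃ + a₁ + a₃ := by
    rw [hti, Equiv.Perm.mul_apply, Equiv.Perm.mul_apply, E4R_sq h2 q1 q4 b14, d31, d34,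
      zero_smul, one_smul, add_zero, E4R_sq h2 q2 q3 b23, s2, s3, zero_smul, zero_smul, add_zero,
      add_zero, E4R_sq h2 q3 q4 b34, s3, s4, zero_smul, add_zero, one_smul]
  -- the values of T
  have E14 : pb Q (y a₁) (y a₄) = 0 := by rw [e, b14]
  have E23 : pb Q (y a₂) (y a₃) = 0 := by rw [e, b23]
  have E34 : pb Q (y a₃) (y a₄) = 0 := by rw [e, b34]
  have E11 : pb Q (y a₁) (y a₁) = 0 := by rw [e, b11]
  have E33 : pb Q (y a₃) (y a₃) = 0 := by rw [e, b33]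
  have E12 : pb Q (y a₁) (y a₂) = 0 := by rw [e, b12]
  have E13 : pb Q (y a₁) (y a₃) = 0 := by rw [e, b13]
  have E31 : pb Q (y a₃) (y a₁) = 0 := by rw [e, b31]
  have E32 : pb Q (y a₃) (y a₂) = 0 := by rw [e, b32]
  have F1 : T a₁ = a₁ + y a₃ := by
    rw [hty, Equiv.Perm.mul_apply, Equiv.Perm.mul_apply, E4R_sq h2 qy3 qy4 E34, c13, c14,
      zero_smul, zero_smul, add_zero, add_zero, E4R_sq h2 qy2 qy3 E23, c12, c13, one_smul,
      zero_smul, add_zero, E4R_sq h2 qy1 qy4 E14, map_add, LinearMap.add_apply,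
      LinearMap.add_apply, c11, E31, c14, E34, add_zero, zero_smul, zero_smul, add_zero, add_zero]
  have S1 : pb Q (a₃ + y a₃) (y a₁) = 0 := by
    rw [map_add, LinearMap.add_apply, c31, E31, add_zero]
  have S2 : pb Q (a₃ + y a₃) (y a₂) = 0 := by
    rw [map_add, LinearMap.add_apply, c32, E32, add_zero]
  have S3 : pb Q (a₃ + y a₃) (y a₃) = 0 := by
    rw [map_add, LinearMap.add_apply, c33, E33, add_zero]
  have S4 : pb Q (a₃ + y a₃) (y a₄) = 1 := by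
    rw [map_add, LinearMap.add_apply, c34, E34, add_zero]
  have F3 : T a₃ = a₃ + y a₃ + y a₁ := by
    rw [hty, Equiv.Perm.mul_apply, Equiv.Perm.mul_apply, E4R_sq h2 qy3 qy4 E34, c33, c34,
      zero_smul, one_smul, add_zero, E4R_sq h2 qy2 qy3 E23, S2, S3, zero_smul, zero_smul,
      add_zero, add_zero, E4R_sq h2 qy1 qy4 E14, S1, S4, zero_smul, add_zero, one_smul]
  have G1 : T (y a₁) = y a₁ := by
    rw [hty, Equiv.Perm.mul_apply, Equiv.Perm.mul_apply, E4R_sq h2 qy3 qy4 E34, E13, E14,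
      zero_smul, zero_smul, add_zero, add_zero, E4R_sq h2 qy2 qy3 E23, E12, E13, zero_smul,
      zero_smul, add_zero, add_zero, E4R_sq h2 qy1 qy4 E14, E11, E14, zero_smul,
      zero_smul, add_zero, add_zero]
  have G3 : T (y a₃) = y a₃ := by
    rw [hty, Equiv.Perm.mul_apply, Equiv.Perm.mul_apply, E4R_sq h2 qy3 qy4 E34, E33, E34,
      zero_smul, zero_smul, add_zero, add_zero, E4R_sq h2 qy2 qy3 E23, E32, E33, zero_smul,
      zero_smul, add_zero, add_zero, E4R_sq h2 qy1 qy4 E14, E31, E34, zero_smul,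
      zero_smul, add_zero, add_zero]
  have htl : Lin F t⁻¹ := ((OQ Q).inv_mem (OmQ_le Q htm)).1
  have hTl : Lin F T := (OmQ_le Q (OmQ_conj hy htm)).1
  -- the orbit of a₁
  have z1 : z a₁ = a₁ + y a₃ := by rw [hzx, f1, F1]
  have z2 : z (a₁ + y a₃) = a₃ + y a₁ := by
    rw [hzx, htl.1, f1, g3]
    have e1 : a₁ + (y a₃ + a₁ + a₃) = y a₃ + a₃ + (a₁ + a₁) := by abel
    rw [e1, addV h2, add_zero, hTl.1, G3, F3]
    have e2 : y a₃ + (a₃ + y a₃ + y a₁) = a₃ + y a₁ + (y a₃ + y a₃) := by abel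
    rw [e2, addV h2, add_zero]
  have z3 : z (a₃ + y a₁) = y a₁ := by
    rw [hzx, htl.1, f3, g1]
    have e1 : a₃ + (y a₁ + a₃) = y a₁ + (a₃ + a₃) := by abel
    rw [e1, addV h2, add_zero, G1]
  have z4 : z (y a₁) = a₃ + y a₃ := by
    rw [hzx, g1, hTl.1, G1, F3]
    have e1 : y a₁ + (a₃ + y a₃ + y a₁) = a₃ + y a₃ + (y a₁ + y a₁) := by abel
    rw [e1, addV h2, add_zero]
  have ha : a₁ ≠ 0 := by
    intro h0
    rw [h0, map_zero, LinearMap.zero_apply] at c12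
    exact zero_ne_one c12
  refine ⟨z, hzm, Gq.comm htm, en5 Q h2 hN z (OmQ_le Q hzm) a₁ ha ?_⟩
  rw [z1, z2, z3, z4]
  have e1 : a₃ + y a₃ + y a₁ + (a₃ + y a₁) + (a₁ + y a₃) + a₁ =
      (a₃ + a₃) + (y a₃ + y a₃) + (y a₁ + y a₁) + (a₁ + a₁) := by abel
  rw [e1, addV h2 a₃, addV h2 (y a₃), addV h2 (y a₁), addV h2 a₁, add_zero, add_zero, add_zero]

end Pool.Agent.ORE
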