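import Pool.Agent.helper53.ORE.Spec

set_option autoImplicit false

namespace Pool.Agent.ORE

open Module Pool.Agent.GS

section

variable {F V : Type} [Field F] [AddCommGroup V] [Module F V] [FiniteDimensional F V]

/-- The kernel of a functional has codimension at most one. -/
theorem L2_ker (φ : V →ₗ[F] F) : finrank F V ≤ finrank F (LinearMap.ker φ) + 1 := by
  have h1 := LinearMap.finrank_range_add_finrank_ker φ
  have h2 : finrank F (LinearMap.range φ) ≤ 1 := by
    have := Submodule.finrank_le (LinearMap.range φ)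
    rwa [Module.finrank_self] at this
  omega

theorem L2_inf (φ : V →ₗ[F] F) (S : Submodule F V) :
    finrank F S ≤ finrank F (S ⊓ LinearMap.ker φ : Submodule F V) + 1 := by
  have h1 := Submodule.finrank_sup_add_finrank_inf_eq S (LinearMap.ker φ)
  have h2 := L2_ker φ
  have h3 := Submodule.finrank_le (S ⊔ LinearMap.ker φ)
  omega

/-- The singular vectors of a totally isotropic subspace. -/
theorem L2_sing [Finite F] (Q : QuadraticForm F V) (h2 : (2 : F) = 0) (W : Submodule F V)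
    (hW : ∀ x ∈ W, ∀ y ∈ W, pb Q x y = 0) :
    ∃ W₁ : Submodule F V, (∀ x, x ∈ W₁ ↔ x ∈ W ∧ Q x = 0) ∧ finrank F W ≤ finrank F W₁ + 1 := by
  have hadd : ∀ x ∈ W, ∀ y ∈ W, Q (x + y) = Q x + Q y := by
    intro x hx y hy
    rw [Q_add, hW x hx y hy, add_zero]
  let W₁ : Submodule F V :=
    { carrier := {x | x ∈ W ∧ Q x = 0}
      add_mem' := by
        rintro x y ⟨hx, hx'⟩ ⟨hy, hy'⟩
        exact ⟨W.add_mem hx hy, by rw [hadd x hx y hy, hx', hy', add_zero]⟩
      zero_mem' := ⟨W.zero_mem, Q_zero Q⟩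
      smul_mem' := by
        rintro c x ⟨hx, hx'⟩
        exact ⟨W.smul_mem c hx, by rw [Q_smul, hx', mul_zero]⟩ }
  have hW₁ : ∀ x, x ∈ W₁ ↔ x ∈ W ∧ Q x = 0 := fun x => Iff.rfl
  refine ⟨W₁, hW₁, ?_⟩
  by_cases h : ∀ x ∈ W, Q x = 0
  · have : W ≤ W₁ := fun x hx => ⟨hx, h x hx⟩
    have := Submodule.finrank_mono this
    omega
  · push Not at h
    obtain ⟨w, hw, hQw⟩ := h
    have hle : W ≤ W₁ ⊔ Submodule.span F {w} := by
      intro x hx
      haveI := charP2 h2
      obtain ⟨c, hc⟩ := FiniteField.isSquare_of_char_two (F := F) (ringChar.eq F 2) (Q x / Q w)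
      rw [Submodule.mem_sup]
      refine ⟨x + c • w, ?_, c • w, Submodule.smul_mem _ _ (Submodule.mem_span_singleton_self w),
        ?_⟩
      · rw [hW₁]
        refine ⟨W.add_mem hx (W.smul_mem c hw), ?_⟩
        rw [hadd x hx _ (W.smul_mem c hw), Q_smul, pow_two, ← hc, div_mul_cancel₀ _ hQw]
        exact add2 h2 _
      · rw [add_assoc, addV h2, add_zero]
    have h3 := Submodule.finrank_mono hle
    have h4 := Submodule.finrank_add_le_finrank_add_finrank W₁ (Submodule.span F {w})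
    have h5 : finrank F (Submodule.span F {w}) ≤ 1 := by
      have := finrank_span_le_card (R := F) ({w} : Set V)
      simpa using this
    omega

end

/-- An isometry with `y x + x` in `F a` for all `x`. -/
theorem L2_rank1 {F V : Type} [Field F] [AddCommGroup V] [Module F V]
    (Q : QuadraticForm F V) (h2 : (2 : F) = 0) (hN : Nd Q) (y : Equiv.Perm V) (hy : y ∈ OQ Q)
    (a x₀ : V) (ha : a ≠ 0) (hx₀ : y x₀ + x₀ = a) (h : ∀ x, ∃ c : F, y x + x = c • a) :
    y = rq Q a := by
  have hyx : ∀ x (c : F), y x + x = c • a → y x = x + c • a := by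
    intro x c hc
    rw [← hc, add_comm (y x) x, ← add_assoc, addV h2, zero_add]
  have h1 : ∀ x (c : F), y x + x = c • a → c * (c * Q a + pb Q x a) = 0 := by
    intro x c hc
    have h3 := hy.2 x
    rw [hyx x c hc, Q_add, Q_smul, map_smul, smul_eq_mul] at h3
    linear_combination h3
  have h3 : pb Q x₀ a = Q a := by
    have := h1 x₀ 1 (by rw [one_smul]; exact hx₀)
    rw [one_mul, one_mul] at this
    exact (eq_of_add2 h2 this).symm
  have h4 : ∀ x (c : F), y x + x = c • a → pb Q x a = c * Q a := by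
    intro x c hc
    by_cases hc0 : c = 0
    · have h5 : y (x + x₀) + (x + x₀) = (1 : F) • a := by
        rw [hy.1.1, one_smul, ← hx₀]
        rw [hc0, zero_smul] at hc
        have : y x + y x₀ + (x + x₀) = (y x + x) + (y x₀ + x₀) := by abel
        rw [this, hc, zero_add]
      have h6 := h1 _ 1 h5
      rw [one_mul, one_mul, map_add, LinearMap.add_apply, h3] at h6
      rw [hc0, zero_mul]
      linear_combination h6 - Q a * h2
    · have h5 := (mul_eq_zero.1 (h1 x c hc)).resolve_left hc0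
      exact (eq_of_add2 h2 h5).symm
  have hQa : Q a ≠ 0 := by
    intro h0
    apply ha
    apply hN
    intro x
    obtain ⟨c, hc⟩ := h x
    rw [pb_symm, h4 x c hc, h0, mul_zero]
  ext x
  obtain ⟨c, hc⟩ := h x
  rw [rq_apply h2 hQa, hyx x c hc, h4 x c hc, mul_div_assoc, div_self hQa, mul_one]

theorem L2 (c2 : C2_stmt) (cw : CWQ_stmt) : L2_stmt := by
  intro F V _ _ _ _ _ Q h2 hN hn y hy hy1 hyy hrq
  have hyl : Lin F y := hy.1
  have hyy' : ∀ x, y (y x) = x := by
    intro x
    have := congrArg (fun g : Equiv.Perm V => g x) hyy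
    exact this
  -- N = y + 1
  set N : V →ₗ[F] V := Ly y hyl + LinearMap.id with hNdef
  have hNx : ∀ x, N x = y x + x := fun x => rfl
  have hkerN : ∀ x, x ∈ LinearMap.ker N ↔ y x = x := by
    intro x
    rw [LinearMap.mem_ker, hNx]
    constructor
    · exact eq_of_addV h2
    · intro h
      rw [h, addV h2]
  set W : Submodule F V := LinearMap.range N with hWdef
  have hWker : W ≤ LinearMap.ker N := by
    rintro _ ⟨x, rfl⟩
    rw [hkerN, hNx, hyl.1, hyy', add_comm]
  have hadj : ∀ x x', pb Q (y x) x' = pb Q x (y x') := by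
    intro x x'
    rw [← OQ_pb hy (y x) x', hyy']
  have hWW : ∀ x ∈ W, ∀ x' ∈ W, pb Q x x' = 0 := by
    rintro _ ⟨x, rfl⟩ _ ⟨x', rfl⟩
    rw [hNx, hNx]
    simp only [map_add, LinearMap.add_apply]
    rw [OQ_pb hy, hadj]
    linear_combination (pb Q x x' + pb Q x (y x')) * h2
  obtain ⟨x₀, hx₀⟩ : ∃ x₀, N x₀ ≠ 0 := by
    by_contra hc
    push Not at hc
    apply hy1
    ext x
    exact (hkerN x).1 (LinearMap.mem_ker.2 (hc x))
  -- the rank is at least two
  have hrk2 : 2 ≤ finrank F W := by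
    by_contra hlt
    have hle : Submodule.span F {N x₀} ≤ W := by
      rw [Submodule.span_singleton_le_iff_mem]
      exact ⟨x₀, rfl⟩
    have heq : Submodule.span F {N x₀} = W := by
      apply Submodule.eq_of_le_of_finrank_le hle
      rw [finrank_span_singleton hx₀]
      omega
    apply hrq (N x₀)
    apply L2_rank1 Q h2 hN y hy (N x₀) x₀ hx₀ rfl
    intro x
    have hx : N x ∈ Submodule.span F {N x₀} := by
      rw [heq]
      exact ⟨x, rfl⟩
    rw [Submodule.mem_span_singleton] at hx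
    obtain ⟨c, hc⟩ := hx
    exact ⟨c, hc.symm⟩
  obtain ⟨W₁, hW₁, hW₁f⟩ := L2_sing Q h2 W hWW
  -- a singular vector w
  obtain ⟨w, hwW₁, hw0⟩ : ∃ w ∈ W₁, w ≠ 0 := by
    apply Submodule.exists_mem_ne_zero_of_ne_bot
    intro hbot
    rw [hbot, finrank_bot] at hW₁f
    omega
  obtain ⟨hwW, hQw⟩ := (hW₁ w).1 hwW₁
  obtain ⟨a, ha⟩ := hwW
  rw [hNx] at ha
  obtain ⟨v, hv⟩ : ∃ v, pb Q w v ≠ 0 := by
    by_contra hc
    push Not at hc
    exact hw0 (hN w hc)
  have hfin : ∀ u, u ≠ 0 → Q u = 0 → y u = u → pb Q u a = 0 → pb Q u v = 0 → Bl Q y 2 := by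
    intro u hu0 hQu hyu hua huv
    refine c2 Q h2 hN hn y hy u a 1 one_ne_zero (by rw [one_smul]; exact hyu) hQu hua ?_ ?_
    · rw [one_smul, ha]
      exact hQw
    · rw [one_smul, ha, LinearIndependent.pair_iff]
      intro s t hst
      have h3 : pb Q (s • u + t • w) v = 0 := by rw [hst, map_zero, LinearMap.zero_apply]
      rw [map_add, map_smul, map_smul, LinearMap.add_apply, LinearMap.smul_apply,
        LinearMap.smul_apply, huv, smul_zero, zero_add, smul_eq_mul] at h3
      have ht : t = 0 := (mul_eq_zero.1 h3).resolve_right hv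
      refine ⟨?_, ht⟩
      rw [ht, zero_smul, add_zero, smul_eq_zero] at hst
      exact hst.resolve_right hu0
  rcases Nat.lt_or_ge (finrank F W) 4 with hlt | hge
  · -- small rank
    have hrk := LinearMap.finrank_range_add_finrank_ker N
    rw [← hWdef] at hrk
    have h3 := L2_inf (pb Q a) (LinearMap.ker N)
    have h4 := L2_inf (pb Q v) (LinearMap.ker N ⊓ LinearMap.ker (pb Q a))
    obtain ⟨u, hu, hu0, hQu⟩ := (cw Q Q).1
      (LinearMap.ker N ⊓ LinearMap.ker (pb Q a) ⊓ LinearMap.ker (pb Q v)) (by omega)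
    rw [Submodule.mem_inf, Submodule.mem_inf, LinearMap.mem_ker, LinearMap.mem_ker] at hu
    obtain ⟨⟨hu1, hu2⟩, hu3⟩ := hu
    refine hfin u hu0 hQu ?_ ?_ ?_
    · exact (hkerN u).1 (LinearMap.mem_ker.2 hu1)
    · rw [pb_symm]; exact LinearMap.mem_ker.1 hu2
    · rw [pb_symm]; exact LinearMap.mem_ker.1 hu3
  · -- large rank
    have h3 := L2_inf (pb Q a) W₁
    have h4 := L2_inf (pb Q v) (W₁ ⊓ LinearMap.ker (pb Q a))
    obtain ⟨u, hu, hu0⟩ : ∃ u ∈ W₁ ⊓ LinearMap.ker (pb Q a) ⊓ LinearMap.ker (pb Q v), u ≠ 0 := by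
      apply Submodule.exists_mem_ne_zero_of_ne_bot
      intro hbot
      rw [hbot, finrank_bot] at h4
      omega
    rw [Submodule.mem_inf, Submodule.mem_inf] at hu
    obtain ⟨⟨hu1, hu2⟩, hu3⟩ := hu
    rw [hW₁] at hu1
    refine hfin u hu0 hu1.2 ?_ ?_ ?_
    · exact (hkerN u).1 (hWker hu1.1)
    · rw [pb_symm]; exact LinearMap.mem_ker.1 hu2
    · rw [pb_symm]; exact LinearMap.mem_ker.1 hu3

end Pool.Agent.ORE
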