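import Pool.Agent.helper53.ORE.Spec

set_option autoImplicit false

namespace Pool.Agent.ORE

open Module Pool.Agent.GS

section

variable {F V : Type} [Field F] [AddCommGroup V] [Module F V] [FiniteDimensional F V]

/-- The kernel of a functional has codimension at most one. -/
theorem O3_ker (φ : V →ₗ[F] F) : finrank F V ≤ finrank F (LinearMap.ker φ) + 1 := by
  have h1 := LinearMap.finrank_range_add_finrank_ker φ
  have h2 : finrank F (LinearMap.range φ) ≤ 1 := by
    have := Submodule.finrank_le (LinearMap.range φ)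
    rwa [Module.finrank_self] at this
  omega

theorem O3_inf (φ : V →ₗ[F] F) (S : Submodule F V) :
    finrank F S ≤ finrank F (S ⊓ LinearMap.ker φ : Submodule F V) + 1 := by
  have h1 := Submodule.finrank_sup_add_finrank_inf_eq S (LinearMap.ker φ)
  have h2 := O3_ker φ
  have h3 := Submodule.finrank_le (S ⊔ LinearMap.ker φ)
  omega

/-- Totally isotropic subspaces. -/
theorem O3_iso (Q : QuadraticForm F V) (hN : Nd Q) (W : Submodule F V)
    (hW : ∀ x ∈ W, ∀ y ∈ W, pb Q x y = 0) : 2 * finrank F W ≤ finrank F V := by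
  have hND : (pb Q).Nondegenerate := by
    rw [LinearMap.BilinForm.nondegenerate_iff_ker_eq_bot]
    rw [LinearMap.ker_eq_bot']
    intro x hx
    apply hN
    intro y
    rw [hx]
    rfl
  have h1 := LinearMap.BilinForm.finrank_orthogonal hND W
  have h2 : W ≤ (pb Q).orthogonal W := by
    intro x hx
    rw [LinearMap.BilinForm.mem_orthogonal_iff]
    intro y hy
    exact hW y hy x hx
  have h3 := Submodule.finrank_mono h2
  have h4 := Submodule.finrank_le W
  omega

end

theorem O3 (c2 : C2_stmt) (cw : CWQ_stmt) : O3_stmt := by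
  intro F V _ _ _ _ _ Q h2 hN hn y hy l _ _ u lam hu hlam hyu
  have hyl : Lin F y := hy.1
  -- lam is not zero
  have hy0 : y 0 = 0 := by
    have := hyl.2 0 0
    rw [zero_smul, zero_smul] at this
    exact this
  have hlam0 : lam ≠ 0 := by
    intro h0
    apply hu
    apply y.injective
    rw [hyu, h0, zero_smul, hy0]
  have hlam2 : lam ^ 2 + 1 ≠ 0 := by
    intro h
    apply hlam
    have h3 : (lam + 1) ^ 2 = 0 := by linear_combination h + lam * h2
    have h4 : lam + 1 = 0 := by
      rwa [sq_eq_zero_iff] at h3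
    exact eq_of_add2 h2 h4
  -- u is singular
  have hQu : Q u = 0 := by
    have h3 := hy.2 u
    rw [hyu, Q_smul] at h3
    have h4 : (lam ^ 2 + 1) * Q u = 0 := by linear_combination h3 + Q u * h2
    exact (mul_eq_zero.1 h4).resolve_left hlam2
  -- a vector v with B(u,v) ≠ 0
  obtain ⟨v, hv⟩ : ∃ v, pb Q u v ≠ 0 := by
    by_contra hc
    push Not at hc
    exact hu (hN u hc)
  -- the map M and the hyperplane H
  set M : V →ₗ[F] V := lam • Ly y hyl + LinearMap.id with hM
  have hMx : ∀ x, M x = lam • y x + x := fun x => rfl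
  set H : Submodule F V := LinearMap.ker (pb Q u) with hH
  have hHx : ∀ x, x ∈ H ↔ pb Q u x = 0 := fun x => LinearMap.mem_ker
  have hyH : ∀ x, pb Q u x = 0 → pb Q u (y x) = 0 := by
    intro x hx
    have h3 := OQ_pb hy u x
    rw [hyu, map_smul, LinearMap.smul_apply, hx, smul_eq_mul] at h3
    exact (mul_eq_zero.1 h3).resolve_left hlam0
  set g : H →ₗ[F] V := M.comp H.subtype with hg
  have hgx : ∀ x : H, g x = lam • y x + x := fun x => rfl
  have hrk := LinearMap.finrank_range_add_finrank_ker g
  set K : Submodule F V := (LinearMap.ker g).map H.subtype with hK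
  have hKf : finrank F K = finrank F (LinearMap.ker g) := by
    rw [hK]
    exact LinearEquiv.finrank_eq
      (Submodule.equivMapOfInjective H.subtype H.injective_subtype (LinearMap.ker g)).symm
  have hKx : ∀ x ∈ K, pb Q u x = 0 ∧ lam • y x = x := by
    intro x hx
    rw [hK, Submodule.mem_map] at hx
    obtain ⟨x', hx', rfl⟩ := hx
    rw [LinearMap.mem_ker, hgx] at hx'
    exact ⟨(hHx _).1 x'.2, eq_of_addV h2 hx'⟩
  -- K is totally isotropic
  have hKK : ∀ x ∈ K, ∀ x' ∈ K, pb Q x x' = 0 := by
    intro x hx x' hx'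
    have h3 := (hKx x hx).2
    have h4 := (hKx x' hx').2
    have h5 := OQ_pb hy x x'
    have h6 : pb Q x x' = lam ^ 2 * pb Q (y x) (y x') := by
      conv_lhs => rw [← h3, ← h4]
      rw [map_smul, map_smul, LinearMap.smul_apply, smul_eq_mul, smul_eq_mul]
      ring
    rw [h5] at h6
    have h7 : (lam ^ 2 + 1) * pb Q x x' = 0 := by
      linear_combination (pb Q x x') * h2 - h6
    exact (mul_eq_zero.1 h7).resolve_left hlam2
  set W : Submodule F V := K ⊔ Submodule.span F {u} with hW
  have hWW : ∀ x ∈ W, ∀ x' ∈ W, pb Q x x' = 0 := by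
    intro x hx x' hx'
    rw [hW, Submodule.mem_sup] at hx hx'
    obtain ⟨a, ha, b, hb, rfl⟩ := hx
    obtain ⟨a', ha', b', hb', rfl⟩ := hx'
    rw [Submodule.mem_span_singleton] at hb hb'
    obtain ⟨s, rfl⟩ := hb
    obtain ⟨s', rfl⟩ := hb'
    have h3 : pb Q a u = 0 := by rw [pb_symm]; exact (hKx a ha).1
    simp only [map_add, LinearMap.add_apply, map_smul, LinearMap.smul_apply, smul_eq_mul,
      pb_self2 h2, hKK a ha a' ha', h3, (hKx a' ha').1, mul_zero, add_zero]
  have hinf : K ⊓ Submodule.span F {u} = ⊥ := by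
    rw [eq_bot_iff]
    intro x hx
    rw [Submodule.mem_inf, Submodule.mem_span_singleton] at hx
    obtain ⟨hxK, s, rfl⟩ := hx
    have h3 := (hKx _ hxK).2
    rw [hyl.2, hyu, smul_smul, smul_smul] at h3
    have h4 : (lam ^ 2 + 1) • (s • u) = 0 := by
      rw [smul_smul]
      have h5 : (lam ^ 2 + 1) * s = lam * s * lam + s := by ring
      rw [h5, add_smul, h3, addV h2]
    rw [smul_eq_zero] at h4
    rw [Submodule.mem_bot]
    exact h4.resolve_left hlam2
  have hWf : finrank F W = finrank F K + 1 := by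
    have h3 := Submodule.finrank_sup_add_finrank_inf_eq K (Submodule.span F {u})
    rw [hinf, finrank_bot, finrank_span_singleton hu] at h3
    rw [hW]
    omega
  have hW2 := O3_iso Q hN W hWW
  have hHf := O3_ker (pb Q u)
  rw [← hH] at hHf
  -- the subspace C
  have hCf := O3_inf ((pb Q).flip v) (LinearMap.range g)
  set C : Submodule F V := LinearMap.range g ⊓ LinearMap.ker ((pb Q).flip v) with hC
  have hC3 : 3 ≤ finrank F C := by omega
  obtain ⟨w, hw, hw0, hQw⟩ := (cw Q Q).1 C hC3
  rw [hC, Submodule.mem_inf, LinearMap.mem_range, LinearMap.mem_ker] at hw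
  obtain ⟨⟨a, ha⟩, hwv'⟩ := hw
  have hwv : pb Q w v = 0 := hwv'
  rw [hgx] at ha
  refine c2 Q h2 hN hn y hy u a lam hlam0 hyu hQu ((hHx _).1 a.2) ?_ ?_
  · rw [ha]
    exact hQw
  · rw [ha, LinearIndependent.pair_iff]
    intro s t hst
    have h3 : pb Q (s • u + t • w) v = 0 := by rw [hst, map_zero, LinearMap.zero_apply]
    rw [map_add, map_smul, map_smul, LinearMap.add_apply, LinearMap.smul_apply,
      LinearMap.smul_apply, hwv, smul_zero, add_zero, smul_eq_mul] at h3
    have hs : s = 0 := (mul_eq_zero.1 h3).resolve_right hv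
    refine ⟨hs, ?_⟩
    rw [hs, zero_smul, zero_add, smul_eq_zero] at hst
    exact hst.resolve_right hw0

end Pool.Agent.ORE
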